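import Pool.Agent.J4.H97.Anosov.Final

/-!
# MP_c30652_gt: the simple Anosov domains are not maximal domains of discontinuity

There is a closed oriented hyperbolic surface such that for all `d ≥ 4` and `2 ≤ k ≤ d - 2` some
domain of discontinuity of `Mod(S)` on the `SL(d, ℂ)` character variety properly contains the
simple `k`-Anosov domain; it contains all simple `j`-Anosov domains, `1 ≤ j ≤ d - 1`.
The definitions are in `Pool.Agent.J4.H97.Anosov.Defs`.
-/

namespace Pool.Agent.Results.MP_c30652_gt.NotMaximal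

open Pool.Agent.J4.H97.Anosov

theorem result : ∃ Γ : Subgroup SL3, IsSurfaceGroup Γ ∧ ∀ d : ℕ, 4 ≤ d →
    ∃ Ω : Set (Γ → ℂ), IsDomainOfDiscontinuity Γ d Ω ∧
      (∀ j : ℕ, 1 ≤ j → j < d → SimpleAnosovDomain Γ d j ⊆ Ω) ∧
      ∀ k : ℕ, 2 ≤ k → k + 2 ≤ d → SimpleAnosovDomain Γ d k ⊂ Ω := by
  refine ⟨Gam, gam_surface, fun d hd => ⟨Om Gam d, gam_domain d, fun j hj hjd =>
    gam_contain hj hjd, fun k hk hkd => ?_⟩⟩
  obtain ⟨χ, h1, h2⟩ := gam_strict hk hkd
  exact ⟨gam_contain (by omega) (by omega), fun hsub =>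
    h2 (hsub (gam_contain (le_refl 1) (by omega) h1))⟩

end Pool.Agent.Results.MP_c30652_gt.NotMaximal
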